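import Mathlib
import Pool.Agent.H508R3.SC

set_option autoImplicit false

namespace Pool.Agent.H483R3.SC4508

open Matrix Pool.Agent.H508R3.SC

/-- multiples of an irrational number are uniformly dense modulo one -/
theorem dens (x : ℝ) (hx : Irrational x) (ε : ℝ) (hε : 0 < ε) :
    ∃ H : ℕ, ∀ t : ℝ, ∃ h : ℕ, h < H ∧ ∃ m : ℤ, |(h : ℝ) * x - t - m| ≤ ε := by
  obtain ⟨n, hn⟩ := exists_nat_one_div_lt hε
  obtain ⟨q, hq0, hqn, hq⟩ := Real.exists_nat_abs_mul_sub_round_le x (n := n + 1) (Nat.succ_pos n)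
  set r : ℤ := round ((q : ℝ) * x) with hr
  set d : ℝ := (q : ℝ) * x - r with hd
  have hq0' : (0 : ℝ) < q := by exact_mod_cast hq0
  have hd0 : d ≠ 0 := by
    intro h0
    have h1 : x = (r : ℝ) / (q : ℝ) := by
      field_simp
      linarith
    exact hx ⟨(r : ℚ) / q, by push_cast; exact h1.symm⟩
  have hdε : |d| ≤ ε := by
    refine le_trans hq (le_trans ?_ hn.le)
    push_cast
    apply one_div_le_one_div_of_le
    · positivity
    · linarith
  refine ⟨q * (⌈1 / |d|⌉₊ + 1), fun t => ?_⟩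
  obtain ⟨s, k, hs, hs1, hsd⟩ : ∃ (s : ℝ) (k : ℤ), t = s + k ∧ |s| ≤ 1 ∧ 0 ≤ s / d := by
    rcases lt_or_gt_of_ne hd0 with h | h
    · refine ⟨t - ⌈t⌉, ⌈t⌉, by ring, ?_, ?_⟩
      · rw [abs_le]
        constructor
        · linarith [Int.ceil_lt_add_one t]
        · linarith [Int.le_ceil t]
      · exact div_nonneg_of_nonpos (by linarith [Int.le_ceil t]) h.le
    · refine ⟨Int.fract t, ⌊t⌋, by rw [Int.fract]; ring, ?_, ?_⟩
      · rw [abs_of_nonneg (Int.fract_nonneg t)]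
        exact (Int.fract_lt_one t).le
      · exact div_nonneg (Int.fract_nonneg t) h.le
  set j : ℕ := ⌊s / d⌋₊ with hj
  have hj1 : (j : ℝ) ≤ s / d := Nat.floor_le hsd
  have hj2 : s / d < j + 1 := Nat.lt_floor_add_one _
  have hjle : (j : ℝ) ≤ 1 / |d| := by
    refine le_trans hj1 ?_
    rw [← abs_of_nonneg hsd, abs_div]
    gcongr
  refine ⟨q * j, ?_, (j : ℤ) * r - k, ?_⟩
  · apply Nat.mul_lt_mul_of_pos_left _ hq0
    have : j ≤ ⌈1 / |d|⌉₊ := by
      have := hjle.trans (Nat.le_ceil _)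
      exact_mod_cast this
    omega
  · have e1 : ((q * j : ℕ) : ℝ) * x - t - (((j : ℤ) * r - k : ℤ) : ℝ) = j * d - s := by
      rw [hs, hd]
      push_cast
      ring
    rw [e1]
    have e2 : (j : ℝ) * d - s = (j - s / d) * d := by
      field_simp
    rw [e2, abs_mul]
    have : |(j : ℝ) - s / d| ≤ 1 := by
      rw [abs_le]
      constructor <;> linarith
    nlinarith [abs_nonneg d]

lemma ns_mul_le (A B : M2) : ns (A * B) ≤ ns A * ns B := by
  simp only [ns, Matrix.mul_apply, Fin.sum_univ_two]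
  nlinarith [sq_nonneg (A 0 0 * B 1 0 - A 0 1 * B 0 0), sq_nonneg (A 0 0 * B 1 1 - A 0 1 * B 0 1),
    sq_nonneg (A 1 0 * B 1 0 - A 1 1 * B 0 0), sq_nonneg (A 1 0 * B 1 1 - A 1 1 * B 0 1)]

lemma ns_nonneg (A : M2) : 0 ≤ ns A := by
  unfold ns; positivity

lemma ns_adj (A : M2) : ns A.adjugate = ns A := by
  rw [Matrix.adjugate_fin_two]
  simp [ns]
  ring

lemma two_le_ns (A : M2) (h : A.det = 1) : 2 ≤ ns A := by
  rw [Matrix.det_fin_two] at h
  unfold ns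
  nlinarith [sq_nonneg (A 0 0 - A 1 1), sq_nonneg (A 0 1 + A 1 0)]

lemma trace_ns (A : M2) : (A * Aᵀ).trace = ns A := by
  simp [Matrix.trace, ns, Matrix.mul_apply, Fin.sum_univ_two, Matrix.transpose_apply]
  ring

/-- the exact formula for the size of `A * rotation * G` -/
lemma ns_formula (A G : M2) (α : ℝ) :
    ns (A * rot α * G) = ns A * ns G / 2 + 2 *
      ((((A 0 0 ^ 2 + A 1 0 ^ 2 - A 0 1 ^ 2 - A 1 1 ^ 2) / 2) *
          ((G 0 0 ^ 2 + G 0 1 ^ 2 - G 1 0 ^ 2 - G 1 1 ^ 2) / 2) +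
        (A 0 0 * A 0 1 + A 1 0 * A 1 1) * (G 0 0 * G 1 0 + G 0 1 * G 1 1)) *
          (Real.cos α ^ 2 - Real.sin α ^ 2) +
       ((A 0 0 * A 0 1 + A 1 0 * A 1 1) * ((G 0 0 ^ 2 + G 0 1 ^ 2 - G 1 0 ^ 2 - G 1 1 ^ 2) / 2) -
        ((A 0 0 ^ 2 + A 1 0 ^ 2 - A 0 1 ^ 2 - A 1 1 ^ 2) / 2) *
          (G 0 0 * G 1 0 + G 0 1 * G 1 1)) * (2 * Real.sin α * Real.cos α)) := by
  have h1 : ns A * ns G / 2 = (ns A * ns G / 2) * (Real.sin α ^ 2 + Real.cos α ^ 2) := by
    rw [Real.sin_sq_add_cos_sq, mul_one]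
  rw [h1]
  simp only [ns, rot, Matrix.mul_apply, Fin.sum_univ_two, Matrix.of_apply, Matrix.cons_val',
    Matrix.cons_val_zero, Matrix.cons_val_one, Matrix.cons_val_fin_one]
  ring


lemma min_bound (a b k w : ℝ) (ha1 : 1 ≤ a) (hb1 : 1 ≤ b) (hab : a ≤ k * b) (hba : b ≤ k * a)
    (hk : 1 ≤ k) (hw : 0 ≤ w) (hzn : w ^ 2 = (a ^ 2 - 1) * (b ^ 2 - 1)) :
    a * b - w ≤ 2 * k := by
  have hab0 : 0 < a * b := by positivity
  have e2 : (a * b - w) * (a * b + w) = a ^ 2 + b ^ 2 - 1 := by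
    have : (a * b - w) * (a * b + w) = a ^ 2 * b ^ 2 - w ^ 2 := by ring
    rw [this, hzn]
    ring
  have e3 : a ^ 2 + b ^ 2 - 1 ≤ 2 * k * (a * b) := by
    have h1 : a * a ≤ a * (k * b) := mul_le_mul_of_nonneg_left hab (by linarith)
    have h2 : b * b ≤ b * (k * a) := mul_le_mul_of_nonneg_left hba (by linarith)
    nlinarith
  by_contra hcon
  push Not at hcon
  have e5 : 2 * k * (a * b) < (a * b - w) * (a * b + w) := by
    have h3 : 2 * k * (a * b) ≤ 2 * k * (a * b + w) := by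
      have : 0 ≤ 2 * k * w := by positivity
      linarith
    refine lt_of_le_of_lt h3 ?_
    apply mul_lt_mul_of_pos_right hcon
    positivity
  linarith

lemma le_prod (a b w : ℝ) (ha1 : 1 ≤ a) (hb1 : 1 ≤ b)
    (hzn : w ^ 2 = (a ^ 2 - 1) * (b ^ 2 - 1)) : w ≤ a * b := by
  have hab0 : 0 < a * b := by positivity
  refine (abs_le_of_sq_le_sq' ?_ hab0.le).2
  rw [hzn]
  have h1 : 1 ≤ a ^ 2 := one_le_pow₀ ha1
  have h2 : 1 ≤ b ^ 2 := one_le_pow₀ hb1
  have h3 : (a * b) ^ 2 = a ^ 2 * b ^ 2 := by ring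
  rw [h3]
  linarith

/-- the smallest value over well spread angles -/
lemma key (A G : M2) (hA : A.det = 1) (hG : G.det = 1) (k K e : ℝ) (hk : 1 ≤ k)
    (h1 : ns A ≤ k * ns G) (h2 : ns G ≤ k * ns A) (hK : ns A * ns G ≤ K)
    (he : 10 * K * e ^ 2 ≤ 1) (x : ℝ) :
    ∃ t : ℝ, ∀ (h : ℕ) (m : ℤ), |(h : ℝ) * x - t - m| ≤ e →
      ns (A * rot (h * (Real.pi * x)) * G) ≤ 4 * k + 1 := by
  set u1 : ℝ := (A 0 0 ^ 2 + A 1 0 ^ 2 - A 0 1 ^ 2 - A 1 1 ^ 2) / 2 with hu1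
  set u2 : ℝ := A 0 0 * A 0 1 + A 1 0 * A 1 1 with hu2
  set v1 : ℝ := (G 0 0 ^ 2 + G 0 1 ^ 2 - G 1 0 ^ 2 - G 1 1 ^ 2) / 2 with hv1
  set v2 : ℝ := G 0 0 * G 1 0 + G 0 1 * G 1 1 with hv2
  set z : ℂ := ⟨u1 * v1 + u2 * v2, u2 * v1 - u1 * v2⟩ with hz
  have hu : u1 ^ 2 + u2 ^ 2 = (ns A / 2) ^ 2 - 1 := by
    have := hA
    rw [Matrix.det_fin_two] at this
    have h3 : (1 : ℝ) = (A 0 0 * A 1 1 - A 0 1 * A 1 0) ^ 2 := by rw [this]; norm_num
    rw [h3]
    simp only [ns, hu1, hu2]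
    ring
  have hv : v1 ^ 2 + v2 ^ 2 = (ns G / 2) ^ 2 - 1 := by
    have := hG
    rw [Matrix.det_fin_two] at this
    have h3 : (1 : ℝ) = (G 0 0 * G 1 1 - G 0 1 * G 1 0) ^ 2 := by rw [this]; norm_num
    rw [h3]
    simp only [ns, hv1, hv2]
    ring
  have hzn : ‖z‖ ^ 2 = ((ns A / 2) ^ 2 - 1) * ((ns G / 2) ^ 2 - 1) := by
    rw [← hu, ← hv, ← Complex.normSq_eq_norm_sq, Complex.normSq_apply]
    simp only [hz]
    ring
  have hA2 := two_le_ns A hA
  have hG2 := two_le_ns G hG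
  have hz0 : 0 ≤ ‖z‖ := norm_nonneg z
  -- bound of the smallest value
  have hmin : ns A * ns G / 2 - 2 * ‖z‖ ≤ 4 * k := by
    have := min_bound (ns A / 2) (ns G / 2) k ‖z‖ (by linarith) (by linarith) (by linarith)
      (by linarith) hk hz0 hzn
    linarith
  -- the error
  have hle : ‖z‖ ≤ ns A / 2 * (ns G / 2) :=
    le_prod (ns A / 2) (ns G / 2) ‖z‖ (by linarith) (by linarith) hzn
  have herr : 2 * ‖z‖ * (20 * e ^ 2) ≤ 1 := by
    have h4 : 0 ≤ e ^ 2 := sq_nonneg e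
    have h5 : 4 * ‖z‖ ≤ K := by linarith
    have h6 : 4 * ‖z‖ * e ^ 2 ≤ K * e ^ 2 := mul_le_mul_of_nonneg_right h5 h4
    linarith
  clear_value z
  refine ⟨(Real.pi + Complex.arg z) / (2 * Real.pi), fun h m hm => ?_⟩
  rw [ns_formula]
  set t : ℝ := (Real.pi + Complex.arg z) / (2 * Real.pi) with ht
  set α : ℝ := h * (Real.pi * x) with hα
  have hc2 : Real.cos α ^ 2 - Real.sin α ^ 2 = Real.cos (2 * α) := by
    rw [Real.cos_two_mul]
    linarith [Real.sin_sq_add_cos_sq α]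
  have hs2 : 2 * Real.sin α * Real.cos α = Real.sin (2 * α) := by
    rw [Real.sin_two_mul]
  rw [hc2, hs2]
  have hre : u1 * v1 + u2 * v2 = ‖z‖ * Real.cos (Complex.arg z) := by
    rw [Complex.norm_mul_cos_arg, hz]
  have him : u2 * v1 - u1 * v2 = ‖z‖ * Real.sin (Complex.arg z) := by
    rw [Complex.norm_mul_sin_arg, hz]
  rw [← hu1, ← hu2, ← hv1, ← hv2, hre, him]
  set f : ℝ := (h : ℝ) * x - t - m with hf
  have hang : 2 * α - Complex.arg z = Real.pi + 2 * Real.pi * f + m * (2 * Real.pi) := by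
    have hp : Real.pi ≠ 0 := Real.pi_ne_zero
    rw [hf, hα, ht]
    field_simp
    ring
  have hcos : Real.cos (2 * α - Complex.arg z) ≤ -1 + 20 * e ^ 2 := by
    rw [hang, Real.cos_add_int_mul_two_pi, add_comm, Real.cos_add_pi]
    have h3 := Real.one_sub_sq_div_two_le_cos (x := 2 * Real.pi * f)
    have h4 : f ^ 2 ≤ e ^ 2 := sq_le_sq' (by linarith [(abs_le.1 hm).1]) (abs_le.1 hm).2
    have h5 : Real.pi ^ 2 ≤ 10 := by
      have := Real.pi_lt_d2
      have h8 : Real.pi ^ 2 ≤ 3.15 ^ 2 := pow_le_pow_left₀ Real.pi_pos.le this.le 2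
      norm_num at h8
      linarith
    have h6 : (2 * Real.pi * f) ^ 2 / 2 ≤ 20 * e ^ 2 := by
      have : (2 * Real.pi * f) ^ 2 / 2 = 2 * (Real.pi ^ 2 * f ^ 2) := by ring
      rw [this]
      have h7 : 0 ≤ f ^ 2 := sq_nonneg f
      have h8 : Real.pi ^ 2 * f ^ 2 ≤ 10 * e ^ 2 := mul_le_mul h5 h4 h7 (by norm_num)
      linarith
    linarith
  have hfin : ‖z‖ * Real.cos (Complex.arg z) * Real.cos (2 * α) +
      ‖z‖ * Real.sin (Complex.arg z) * Real.sin (2 * α) ≤ ‖z‖ * (-1 + 20 * e ^ 2) := by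
    have : ‖z‖ * Real.cos (Complex.arg z) * Real.cos (2 * α) +
      ‖z‖ * Real.sin (Complex.arg z) * Real.sin (2 * α) =
        ‖z‖ * Real.cos (2 * α - Complex.arg z) := by
      rw [Real.cos_sub]
      ring
    rw [this]
    exact mul_le_mul_of_nonneg_left hcos hz0
  linarith

/-- a matrix with `R * Rᵀ = 1` and determinant one is a rotation -/
lemma rot_of_orth (R : M2) (hR : R.det = 1) (hRR : R * Rᵀ = 1) :
    R = rot (Real.arccos (R.trace / 2)) ∨ R = rot (-Real.arccos (R.trace / 2)) := by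
  have hadj : R.adjugate = Rᵀ := by
    calc R.adjugate = R.adjugate * (R * Rᵀ) := by rw [hRR, Matrix.mul_one]
      _ = (R.adjugate * R) * Rᵀ := by rw [Matrix.mul_assoc]
      _ = Rᵀ := by rw [Matrix.adjugate_mul, hR, one_smul, Matrix.one_mul]
  rw [Matrix.adjugate_fin_two] at hadj
  have h00 := congrFun (congrFun hadj 0) 0
  have h10 := congrFun (congrFun hadj 0) 1
  simp only [Matrix.of_apply, Matrix.cons_val', Matrix.cons_val_zero, Matrix.cons_val_one,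
    Matrix.cons_val_fin_one, Matrix.transpose_apply] at h00 h10
  have hdet := hR
  rw [Matrix.det_fin_two, h00, ← h10] at hdet
  have htr : R.trace / 2 = R 0 0 := by
    rw [Matrix.trace_fin_two, h00]
    ring
  have hsq : R 0 0 ^ 2 + R 0 1 ^ 2 = 1 := by linarith
  have hcos : Real.cos (Real.arccos (R.trace / 2)) = R 0 0 := by
    rw [Real.cos_arccos, htr] <;> rw [htr] <;> nlinarith [sq_nonneg (R 0 1)]
  have hsin : Real.sin (Real.arccos (R.trace / 2)) = |R 0 1| := by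
    rw [Real.sin_arccos, htr, ← Real.sqrt_sq_eq_abs]
    congr 1
    linarith
  rcases le_total (R 0 1) 0 with h | h
  · left
    rw [abs_of_nonpos h] at hsin
    ext i j
    fin_cases i <;> fin_cases j <;> simp [rot, hcos, hsin, h00] <;> linarith
  · right
    rw [abs_of_nonneg h] at hsin
    ext i j
    fin_cases i <;> fin_cases j <;> simp [rot, hcos, hsin, h00] <;> linarith

/-- elliptic matrices are conjugate to rotations -/
lemma conj_rot (X Z : M2) (hX : X.det = 1) (hZs : Z.IsSymm) (hZ : Z.det = 1) (hZ0 : 0 < Z 0 0)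
    (hXZ : X * Z * Xᵀ = Z) :
    ∃ (C D : M2) (φ : ℝ), C.det = 1 ∧ D.det = 1 ∧ C * D = 1 ∧ D * C = 1 ∧ C * Cᵀ = Z ∧
      X = C * rot φ * D ∧ (φ = Real.arccos (X.trace / 2) ∨ φ = -Real.arccos (X.trace / 2)) := by
  set r := Real.sqrt (Z 0 0) with hr
  have hr0 : 0 < r := Real.sqrt_pos.2 hZ0
  have hr2 : r ^ 2 = Z 0 0 := Real.sq_sqrt hZ0.le
  have hsym : Z 1 0 = Z 0 1 := hZs.apply 0 1
  set C : M2 := !![r, 0; Z 0 1 / r, 1 / r] with hC
  set D : M2 := !![1 / r, 0; -(Z 0 1 / r), r] with hD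
  have hCd : C.det = 1 := by
    rw [hC, Matrix.det_fin_two_of]
    field_simp
    ring
  have hDd : D.det = 1 := by
    rw [hD, Matrix.det_fin_two_of]
    field_simp
    ring
  have hCD : C * D = 1 := by
    ext i j
    fin_cases i <;> fin_cases j <;>
      simp [hC, hD, Matrix.mul_apply, Fin.sum_univ_two] <;> field_simp <;> ring
  have hDC : D * C = 1 := by
    ext i j
    fin_cases i <;> fin_cases j <;>
      simp [hC, hD, Matrix.mul_apply, Fin.sum_univ_two] <;> field_simp <;> ring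
  have hCC : C * Cᵀ = Z := by
    have hdet := hZ
    rw [Matrix.det_fin_two, hsym, ← hr2] at hdet
    ext i j
    fin_cases i <;> fin_cases j
    · simp [hC, Matrix.mul_apply, Fin.sum_univ_two, Matrix.transpose_apply]
      rw [← hr2]; ring
    · simp [hC, Matrix.mul_apply, Fin.sum_univ_two, Matrix.transpose_apply]
      field_simp
    · simp [hC, Matrix.mul_apply, Fin.sum_univ_two, Matrix.transpose_apply]
      rw [hsym]
      field_simp
    · simp [hC, Matrix.mul_apply, Fin.sum_univ_two, Matrix.transpose_apply]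
      field_simp
      linarith
  set R : M2 := D * X * C with hR
  have hRd : R.det = 1 := by
    rw [hR, Matrix.det_mul, Matrix.det_mul, hCd, hDd, hX]
    norm_num
  have hRR : R * Rᵀ = 1 := by
    calc R * Rᵀ = D * (X * (C * Cᵀ) * Xᵀ) * Dᵀ := by
          rw [hR]
          simp only [Matrix.transpose_mul, Matrix.mul_assoc]
      _ = D * Z * Dᵀ := by rw [hCC, hXZ]
      _ = (D * C) * (D * C)ᵀ := by
          rw [← hCC]
          simp only [Matrix.transpose_mul, Matrix.mul_assoc]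
      _ = 1 := by rw [hDC]; simp
  have htr : R.trace = X.trace := by
    rw [hR, Matrix.trace_mul_comm, ← Matrix.mul_assoc, hCD, Matrix.one_mul]
  have hXR : X = C * R * D := by
    rw [hR]
    calc X = (C * D) * X * (C * D) := by rw [hCD]; simp
      _ = C * (D * X * C) * D := by simp only [Matrix.mul_assoc]
  rcases rot_of_orth R hRd hRR with h | h
  · refine ⟨C, D, Real.arccos (X.trace / 2), hCd, hDd, hCD, hDC, hCC, ?_, Or.inl rfl⟩
    rw [← htr, ← h, hXR]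
  · refine ⟨C, D, -Real.arccos (X.trace / 2), hCd, hDd, hCD, hDC, hCC, ?_, Or.inr rfl⟩
    rw [← htr, ← h, hXR]

lemma rot_pow (φ : ℝ) (h : ℕ) : rot φ ^ h = rot (h * φ) := by
  induction h with
  | zero =>
    ext i j
    fin_cases i <;> fin_cases j <;> simp [rot]
  | succ n ih =>
    rw [pow_succ, ih]
    have e : ((n + 1 : ℕ) : ℝ) * φ = n * φ + φ := by push_cast; ring
    rw [e]
    ext i j
    fin_cases i <;> fin_cases j <;>
      simp [rot, Matrix.mul_apply, Fin.sum_univ_two, Real.cos_add, Real.sin_add] <;> ring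

lemma pq_le (p q x d : ℝ) (hx : |x| ≤ d) : p * q * x ≤ (p ^ 2 + q ^ 2) / 2 * d := by
  have h1 : |p * q| ≤ (p ^ 2 + q ^ 2) / 2 := by
    rw [abs_le]
    constructor <;> nlinarith [sq_nonneg (p + q), sq_nonneg (p - q)]
  calc p * q * x ≤ |p * q * x| := le_abs_self _
    _ = |p * q| * |x| := abs_mul _ _
    _ ≤ (p ^ 2 + q ^ 2) / 2 * d := mul_le_mul h1 hx (abs_nonneg _) (by positivity)

lemma trace_le (D E : M2) (d : ℝ) (hE : ∀ i j, |E i j| ≤ d) :
    (D * E * Dᵀ).trace ≤ 2 * d * ns D := by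
  have h1 := pq_le (D 0 0) (D 0 0) _ _ (hE 0 0)
  have h2 := pq_le (D 0 0) (D 0 1) _ _ (hE 0 1)
  have h3 := pq_le (D 0 0) (D 0 1) _ _ (hE 1 0)
  have h4 := pq_le (D 0 1) (D 0 1) _ _ (hE 1 1)
  have h5 := pq_le (D 1 0) (D 1 0) _ _ (hE 0 0)
  have h6 := pq_le (D 1 0) (D 1 1) _ _ (hE 0 1)
  have h7 := pq_le (D 1 0) (D 1 1) _ _ (hE 1 0)
  have h8 := pq_le (D 1 1) (D 1 1) _ _ (hE 1 1)
  have e1 : (D * E * Dᵀ).trace = D 0 0 * D 0 0 * E 0 0 + D 0 0 * D 0 1 * E 0 1 +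
      D 0 0 * D 0 1 * E 1 0 + D 0 1 * D 0 1 * E 1 1 + D 1 0 * D 1 0 * E 0 0 +
      D 1 0 * D 1 1 * E 0 1 + D 1 0 * D 1 1 * E 1 0 + D 1 1 * D 1 1 * E 1 1 := by
    simp only [Matrix.trace_fin_two, Matrix.mul_apply, Fin.sum_univ_two, Matrix.transpose_apply]
    ring
  have e2 : 2 * d * ns D = (D 0 0 ^ 2 + D 0 0 ^ 2) / 2 * d + (D 0 0 ^ 2 + D 0 1 ^ 2) / 2 * d +
      (D 0 0 ^ 2 + D 0 1 ^ 2) / 2 * d + (D 0 1 ^ 2 + D 0 1 ^ 2) / 2 * d +
      (D 1 0 ^ 2 + D 1 0 ^ 2) / 2 * d + (D 1 0 ^ 2 + D 1 1 ^ 2) / 2 * d +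
      (D 1 0 ^ 2 + D 1 1 ^ 2) / 2 * d + (D 1 1 ^ 2 + D 1 1 ^ 2) / 2 * d := by
    unfold ns
    ring
  rw [e1, e2]
  linarith

lemma conj_pow (C D R : M2) (hDC : D * C = 1) (hCD : C * D = 1) (h : ℕ) :
    (C * R * D) ^ h = C * R ^ h * D := by
  induction h with
  | zero => simp [hCD]
  | succ n ih =>
    rw [pow_succ, ih, pow_succ]
    calc C * R ^ n * D * (C * R * D) = C * R ^ n * (D * C) * R * D := by
          simp only [Matrix.mul_assoc]
      _ = C * (R ^ n * R) * D := by rw [hDC]; simp only [Matrix.mul_assoc, Matrix.one_mul]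

/-- the piece 508-SC4 -/
theorem align (κ : ℝ) (hκ : 1 ≤ κ) : ∃ C1 : ℝ, ∀ (M : ℝ) (X Z F : M2), X.det = 1 → F.det = 1 →
    |X.trace| < 2 → Irrational (Real.arccos (X.trace / 2) / Real.pi) → Z.IsSymm → Z.det = 1 →
    0 < Z 0 0 → X * Z * Xᵀ = Z → ∃ H : ℕ, ∃ δ > 0, ∀ B g : M2, B.det = 1 → g.det = 1 →
    (∀ i j, |(B * Bᵀ - Z) i j| ≤ δ) → ns g ≤ M → (F * Z * Fᵀ).trace ≤ κ * ns g →
    ns g ≤ κ * (F * Z * Fᵀ).trace → ∃ h < H, ns (F * X ^ h * B * g) ≤ C1 := by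
  refine ⟨4 * (3 * κ) + 1, fun M X Z F hX hF htr hirr hZs hZ hZ0 hXZ => ?_⟩
  obtain ⟨C, D, φ, hCd, hDd, hCD, hDC, hCC, hXC, hφ⟩ := conj_rot X Z hX hZs hZ hZ0 hXZ
  have hp : Real.pi ≠ 0 := Real.pi_ne_zero
  obtain ⟨x, hx, hφx⟩ : ∃ x : ℝ, Irrational x ∧ φ = Real.pi * x := by
    rcases hφ with h | h
    · exact ⟨_, hirr, by rw [h]; field_simp⟩
    · exact ⟨_, hirr.neg, by rw [h]; field_simp⟩
  -- parameters
  set K : ℝ := 3 * κ * M ^ 2 with hK
  have hK0 : 0 ≤ K := by positivity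
  set e : ℝ := 1 / (10 * (K + 1)) with he
  have he0 : 0 < e := by positivity
  have heK : 10 * K * e ^ 2 ≤ 1 := by
    rw [he, div_pow, one_pow, mul_one_div, div_le_one (by positivity)]
    nlinarith
  obtain ⟨H, hH⟩ := dens x hx e he0
  set c : ℝ := ns D with hc
  have hc0 : 2 ≤ c := two_le_ns D hDd
  refine ⟨H, 1 / (4 * c), by positivity, fun B g hB hg hBZ hgM h1 h2 => ?_⟩
  -- the matrix `N = D * B` is nearly orthogonal
  have hN : ns (D * B) ≤ 3 := by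
    rw [← trace_ns]
    have e1 : D * B * (D * B)ᵀ = 1 + D * (B * Bᵀ - Z) * Dᵀ := by
      have e2 : D * Z * Dᵀ = 1 := by
        calc D * Z * Dᵀ = (D * C) * (D * C)ᵀ := by
              rw [← hCC]
              simp only [Matrix.transpose_mul, Matrix.mul_assoc]
          _ = 1 := by rw [hDC]; simp
      rw [Matrix.mul_sub, Matrix.sub_mul, e2]
      simp only [Matrix.transpose_mul, Matrix.mul_assoc]
      abel
    rw [e1, Matrix.trace_add]
    have e3 := trace_le D _ _ hBZ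
    have e4 : 2 * (1 / (4 * c)) * c = 1 / 2 := by
      field_simp
      norm_num
    rw [← hc, e4] at e3
    have e5 : (1 : M2).trace = 2 := by simp
    rw [e5]
    linarith
  have hNd : (D * B).det = 1 := by rw [Matrix.det_mul, hDd, hB, one_mul]
  have hA : ns (F * C) = (F * Z * Fᵀ).trace := by
    rw [← trace_ns, ← hCC]
    congr 1
    simp only [Matrix.transpose_mul, Matrix.mul_assoc]
  have hG1 : ns (D * B * g) ≤ 3 * ns g :=
    le_trans (ns_mul_le _ _) (mul_le_mul_of_nonneg_right hN (ns_nonneg g))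
  have hG2 : ns g ≤ 3 * ns (D * B * g) := by
    have e1 : g = (D * B).adjugate * (D * B * g) := by
      rw [← Matrix.mul_assoc, Matrix.adjugate_mul, hNd, one_smul, Matrix.one_mul]
    calc ns g = ns ((D * B).adjugate * (D * B * g)) := by rw [← e1]
      _ ≤ ns (D * B).adjugate * ns (D * B * g) := ns_mul_le _ _
      _ ≤ 3 * ns (D * B * g) := by
          rw [ns_adj]
          exact mul_le_mul_of_nonneg_right hN (ns_nonneg _)
  have hg0 := ns_nonneg g
  obtain ⟨t, ht⟩ := key (F * C) (D * B * g) (by rw [Matrix.det_mul, hF, hCd, one_mul])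
    (by rw [Matrix.det_mul, hNd, hg, one_mul]) (3 * κ) K e (by linarith)
    (by
      rw [hA]
      have : κ * ns g ≤ κ * (3 * ns (D * B * g)) := mul_le_mul_of_nonneg_left hG2 (by linarith)
      linarith)
    (by
      rw [hA]
      linarith)
    (by
      rw [hA, hK]
      have h3 : (F * Z * Fᵀ).trace ≤ κ * M := le_trans h1 (mul_le_mul_of_nonneg_left hgM (by linarith))
      have h4 : ns (D * B * g) ≤ 3 * M := by linarith
      have h5 : 0 ≤ κ * M := by nlinarith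
      calc (F * Z * Fᵀ).trace * ns (D * B * g) ≤ (κ * M) * (3 * M) :=
            mul_le_mul h3 h4 (ns_nonneg _) h5
        _ = 3 * κ * M ^ 2 := by ring)
    heK x
  obtain ⟨h, hh, m, hm⟩ := hH t
  refine ⟨h, hh, ?_⟩
  have hfin : F * X ^ h * B * g = F * C * rot (h * (Real.pi * x)) * (D * B * g) := by
    rw [hXC, conj_pow C D _ hDC hCD, rot_pow, hφx]
    simp only [Matrix.mul_assoc]
  rw [hfin]
  exact ht h m hm

end Pool.Agent.H483R3.SC4508
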