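import Mathlib
import Pool.Agent.H508R3.SC

set_option autoImplicit false

namespace Pool.Agent.H483R3.SC6508

open Matrix MeasureTheory Filter Pool.Agent.H508R3.SC

/-- vectors outside the two invariant lines grow -/
lemma grow (x a b : ℝ) (hx : x ≤ -8) (hQ : a ^ 2 + b ^ 2 ≠ x * a * b) :
    Tendsto (fun l : ℕ => (((Am x) ^ l) 0 0 * a + ((Am x) ^ l) 0 1 * b) ^ 2 +
      (((Am x) ^ l) 1 0 * a + ((Am x) ^ l) 1 1 * b) ^ 2) atTop atTop := by
  set s := Real.sqrt (x ^ 2 - 4) with hs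
  have hs0 : 0 ≤ s := Real.sqrt_nonneg _
  have hs2 : s ^ 2 = x ^ 2 - 4 := Real.sq_sqrt (by nlinarith)
  set μ : ℝ := (x + s) / 2 with hμ
  set lam : ℝ := (x - s) / 2 with hlam
  have h1 : lam + μ = x := by rw [hμ, hlam]; ring
  have h2 : lam * μ = 1 := by
    rw [hμ, hlam]
    linear_combination -hs2 / 4
  have h3 : lam ≤ -4 := by rw [hlam]; linarith
  have h4 : 16 ≤ lam ^ 2 := by nlinarith
  have h5 : μ ^ 2 ≤ 1 := by
    have : lam ^ 2 * μ ^ 2 = 1 := by rw [← mul_pow, h2, one_pow]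
    nlinarith [sq_nonneg μ]
  have hu0 : a - μ * b ≠ 0 := by
    intro h
    apply hQ
    have ha : a = μ * b := by linarith
    have hx' : x * μ = 1 + μ ^ 2 := by rw [← h1]; linear_combination h2
    rw [ha]
    linear_combination -b ^ 2 * hx'
  have hrec : ∀ l : ℕ, (((Am x) ^ l) 0 0 * a + ((Am x) ^ l) 0 1 * b) -
      μ * (((Am x) ^ l) 1 0 * a + ((Am x) ^ l) 1 1 * b) = lam ^ l * (a - μ * b) := by
    intro l
    induction l with
    | zero => simp
    | succ n ih =>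
      rw [pow_succ' (Am x) n, pow_succ, mul_comm (lam ^ n) lam, mul_assoc, ← ih]
      simp only [Am, Matrix.mul_apply, Fin.sum_univ_two, Matrix.of_apply, Matrix.cons_val',
        Matrix.cons_val_zero, Matrix.cons_val_one, Matrix.cons_val_fin_one]
      rw [← h1]
      linear_combination ((!![lam + μ, -1; 1, 0] ^ n) 1 0 * a +
        (!![lam + μ, -1; 1, 0] ^ n) 1 1 * b) * h2
  have hlow : ∀ l : ℕ, (lam ^ 2) ^ l * ((a - μ * b) ^ 2 / 2) ≤
      (((Am x) ^ l) 0 0 * a + ((Am x) ^ l) 0 1 * b) ^ 2 +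
      (((Am x) ^ l) 1 0 * a + ((Am x) ^ l) 1 1 * b) ^ 2 := by
    intro l
    have h := hrec l
    set p := ((Am x) ^ l) 0 0 * a + ((Am x) ^ l) 0 1 * b with hp
    set q := ((Am x) ^ l) 1 0 * a + ((Am x) ^ l) 1 1 * b with hq
    have e1 : (lam ^ 2) ^ l * ((a - μ * b) ^ 2 / 2) = (p - μ * q) ^ 2 / 2 := by
      rw [h, ← pow_mul, mul_comm 2 l, pow_mul, mul_pow]
      ring
    rw [e1]
    nlinarith [sq_nonneg (μ * p + q), sq_nonneg p, sq_nonneg q,
      mul_nonneg (sub_nonneg.2 h5) (add_nonneg (sq_nonneg p) (sq_nonneg q))]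
  refine tendsto_atTop_mono hlow ?_
  apply Tendsto.atTop_mul_const
  · have : 0 < (a - μ * b) ^ 2 := by positivity
    linarith
  · exact tendsto_pow_atTop_atTop_of_one_lt (by linarith)

/-- the piece 508-SC6 -/
theorem growth (v : ℝ → ℝ × ℝ) (hv : Measurable v) (hne : ∀ θ, v θ ≠ 0) (Λ ε : ℝ) (hε : 0 < ε) :
    ∃ c : ℝ, 10 ≤ c ∧ c ≤ 11 ∧ ∃ l : ℕ,
      volume {θ ∈ Set.Icc (Real.pi / 8) (3 * Real.pi / 8) |
        let M := (Am (2 * Real.cos θ - c)) ^ l;
        (M 0 0 * (v θ).1 + M 0 1 * (v θ).2) ^ 2 +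
          (M 1 0 * (v θ).1 + M 1 1 * (v θ).2) ^ 2 < Λ} ≤ ENNReal.ofReal ε := by
  set TH : Set ℝ := Set.Icc (Real.pi / 8) (3 * Real.pi / 8) with hTH
  have hTHm : MeasurableSet TH := measurableSet_Icc
  have hTHf : volume TH ≠ ⊤ := by
    rw [hTH, Real.volume_Icc]
    exact ENNReal.ofReal_ne_top
  have hv1 : Measurable fun θ => (v θ).1 := measurable_fst.comp hv
  have hv2 : Measurable fun θ => (v θ).2 := measurable_snd.comp hv
  set bad : ℝ → Set ℝ := fun c => {θ ∈ TH | (v θ).1 ^ 2 + (v θ).2 ^ 2 =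
    (2 * Real.cos θ - c) * (v θ).1 * (v θ).2} with hbad
  have hbm : ∀ c, MeasurableSet (bad c) := by
    intro c
    refine hTHm.inter (measurableSet_eq_fun ?_ ?_)
    · fun_prop
    · fun_prop
  have hdisj : Pairwise (Function.onFun Disjoint bad) := by
    intro c c' hcc
    rw [Function.onFun, Set.disjoint_left]
    rintro θ ⟨_, h1⟩ ⟨_, h2⟩
    have h3 : (c - c') * ((v θ).1 * (v θ).2) = 0 := by
      have := h1.symm.trans h2
      linear_combination -this
    rcases mul_eq_zero.1 h3 with h | h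
    · exact hcc (by linarith)
    · have h4 : (v θ).1 ^ 2 + (v θ).2 ^ 2 = 0 := by
        rw [h1, mul_assoc, h, mul_zero]
      have h5 : (v θ).1 = 0 := by nlinarith [sq_nonneg (v θ).1, sq_nonneg (v θ).2]
      have h6 : (v θ).2 = 0 := by nlinarith [sq_nonneg (v θ).1, sq_nonneg (v θ).2]
      exact hne θ (Prod.ext h5 h6)
  have hcount := Measure.countable_meas_pos_of_disjoint_iUnion (μ := volume) hbm hdisj
  have hnc : ¬ (Set.Icc (10 : ℝ) 11).Countable := by
    intro h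
    have := h.measure_zero volume
    rw [Real.volume_Icc] at this
    norm_num at this
  obtain ⟨c, hc1, hc2⟩ : ∃ c ∈ Set.Icc (10 : ℝ) 11, volume (bad c) = 0 := by
    by_contra hcon
    push Not at hcon
    exact hnc (hcount.mono fun c hc => pos_iff_ne_zero.2 (hcon c hc))
  refine ⟨c, hc1.1, hc1.2, ?_⟩
  set f : ℕ → ℝ → ℝ := fun l θ =>
    (((Am (2 * Real.cos θ - c)) ^ l) 0 0 * (v θ).1 +
      ((Am (2 * Real.cos θ - c)) ^ l) 0 1 * (v θ).2) ^ 2 +
    (((Am (2 * Real.cos θ - c)) ^ l) 1 0 * (v θ).1 +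
      ((Am (2 * Real.cos θ - c)) ^ l) 1 1 * (v θ).2) ^ 2 with hf
  have hAc : Continuous fun θ : ℝ => Am (2 * Real.cos θ - c) := by
    apply continuous_matrix
    intro i j
    fin_cases i <;> fin_cases j <;> simp [Am] <;> fun_prop
  have hfm : ∀ l, Measurable (f l) := by
    intro l
    have hM : Continuous fun θ : ℝ => (Am (2 * Real.cos θ - c)) ^ l := hAc.pow l
    have h00 := (hM.matrix_elem 0 0).measurable
    have h01 := (hM.matrix_elem 0 1).measurable
    have h10 := (hM.matrix_elem 1 0).measurable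
    have h11 := (hM.matrix_elem 1 1).measurable
    exact (((h00.mul hv1).add (h01.mul hv2)).pow_const 2).add
      (((h10.mul hv1).add (h11.mul hv2)).pow_const 2)
  set S : ℕ → Set ℝ := fun l => {θ ∈ TH | ∃ k, l ≤ k ∧ f k θ < Λ} with hS
  have hSm : ∀ l, MeasurableSet (S l) := by
    intro l
    have : S l = TH ∩ ⋃ k, ⋃ (_ : l ≤ k), {θ | f k θ < Λ} := by
      ext θ
      simp [hS]
    rw [this]
    exact hTHm.inter (MeasurableSet.iUnion fun k => MeasurableSet.iUnion fun _ =>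
      measurableSet_lt (hfm k) measurable_const)
  have hanti : Antitone S := by
    intro l l' hll θ hθ
    obtain ⟨h1, k, hk, h2⟩ := hθ
    exact ⟨h1, k, hll.trans hk, h2⟩
  have hlim := tendsto_measure_iInter_atTop (μ := volume) (fun l => (hSm l).nullMeasurableSet) hanti
    ⟨0, ne_top_of_le_ne_top hTHf (measure_mono fun θ hθ => hθ.1)⟩
  have hzero : volume (⋂ l, S l) = 0 := by
    refine measure_mono_null (fun θ hθ => ?_) hc2
    rw [Set.mem_iInter] at hθ
    have hθT : θ ∈ TH := (hθ 0).1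
    refine ⟨hθT, ?_⟩
    by_contra hcon
    have hx : 2 * Real.cos θ - c ≤ -8 := by
      have := Real.cos_le_one θ
      linarith [hc1.1]
    have hg := grow _ _ _ hx hcon
    obtain ⟨N, hN⟩ := (hg.eventually_ge_atTop Λ).exists_forall_of_atTop
    obtain ⟨_, k, hk, hk2⟩ := hθ N
    have := hN k hk
    simp only [hf] at hk2
    linarith
  rw [hzero] at hlim
  obtain ⟨l, hl⟩ := (hlim.eventually (gt_mem_nhds (ENNReal.ofReal_pos.2 hε))).exists
  refine ⟨l, le_trans (measure_mono fun θ hθ => ?_) hl.le⟩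
  exact ⟨hθ.1, l, le_rfl, hθ.2⟩

end Pool.Agent.H483R3.SC6508
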